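import Pool.Agent.N515.Lind.Sp

/-!
# The exponential step

Let `S : Sp Z` and let `L` be a well-ordered set with an injection `ι : L → P 0`. Then
`(L → Bool) × Finset Z` carries a first countable T₁ topology which is a countable union of
relatively compact sets, the first of which is `(L → Bool) × {∅}`.
-/

set_option autoImplicit false
universe u

namespace Pool.Agent.N515.Lind

open Set Filter Topology

/-- `a` and `b` differ for the first time at `η`. -/
def FD {L : Type u} [LinearOrder L] (a b : L → Bool) (η : L) : Prop :=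
  (∀ ζ < η, a ζ = b ζ) ∧ a η ≠ b η

theorem FD.unique {L : Type u} [LinearOrder L] {a b : L → Bool} {η η' : L} (h : FD a b η)
    (h' : FD a b η') : η = η' := by
  rcases lt_trichotomy η η' with h1 | h1 | h1
  · exact absurd (h'.1 η h1) h.2
  · exact h1
  · exact absurd (h.1 η' h1) h'.2

theorem exists_FD {L : Type u} [LinearOrder L] [WellFoundedLT L] {a b : L → Bool} (h : a ≠ b) :
    ∃ η, FD a b η := by
  have hne : {η | a η ≠ b η}.Nonempty := Function.ne_iff.1 h
  refine ⟨(wellFounded_lt (α := L)).min _ hne, ?_, (wellFounded_lt (α := L)).min_mem _ hne⟩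
  intro ζ hζ
  by_contra hc
  exact (wellFounded_lt (α := L)).not_lt_min _ (x := ζ) hc hζ

variable {Z : Type u} (S : Sp Z)

theorem exists_sep (A B : Finset Z) : ∃ m, ∀ s ∈ A, ∀ t ∈ B, t ∈ S.U m s → t = s := by
  classical
  have h : ∀ p : Z × Z, ∃ m, p.2 ∈ S.U m p.1 → p.2 = p.1 := by
    intro p
    by_cases hp : p.2 = p.1
    · exact ⟨0, fun _ => hp⟩
    · obtain ⟨n, hn⟩ := S.sep p.1 p.2 hp
      exact ⟨n, fun hh => absurd hh hn⟩
  choose f hf using h
  refine ⟨(A ×ˢ B).sup f, fun s hs t ht hh => hf (s, t) (S.anti _ _ ?_ _ hh)⟩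
  exact Finset.le_sup (f := f) (Finset.mk_mem_product hs ht)

theorem exists_opn (n : ℕ) (A B : Finset Z) :
    ∃ m, ∀ s ∈ A, ∀ t ∈ B, t ∈ S.U n s → S.U m t ⊆ S.U n s := by
  classical
  have h : ∀ p : Z × Z, ∃ m, p.2 ∈ S.U n p.1 → S.U m p.2 ⊆ S.U n p.1 := by
    intro p
    by_cases hp : p.2 ∈ S.U n p.1
    · obtain ⟨m, hm⟩ := S.opn n p.1 p.2 hp
      exact ⟨m, fun _ => hm⟩
    · exact ⟨0, fun hh => absurd hh hp⟩
  choose f hf using h
  refine ⟨(A ×ˢ B).sup f, fun s hs t ht hh => ?_⟩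
  exact (S.anti _ _ (Finset.le_sup (f := f) (Finset.mk_mem_product hs ht)) t).trans
    (hf (s, t) hh)

/-- `B` is close to `A` (Vietoris). -/
def V (n : ℕ) (A B : Finset Z) : Prop :=
  (∀ t ∈ B, ∃ s ∈ A, t ∈ S.U n s) ∧ (∀ s ∈ A, ∃ t ∈ B, t ∈ S.U n s)

variable {L : Type u} [LinearOrder L] (ι : L → Z)

/-- The basic neighbourhoods. -/
def W (n : ℕ) (x : (L → Bool) × Finset Z) : Set ((L → Bool) × Finset Z) :=
  {y | (y.1 = x.1 ∧ V S n x.2 y.2) ∨
    ∃ η, FD x.1 y.1 η ∧ (∃ s ∈ x.2, ι η ∈ S.U n s) ∧ ι η ∉ x.2 ∧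
      ∀ t ∈ y.2, ∃ s ∈ x.2, t ∈ S.U n s}

theorem W_self (n : ℕ) (x : (L → Bool) × Finset Z) : x ∈ W S ι n x :=
  Or.inl ⟨rfl, fun t ht => ⟨t, ht, S.self n t⟩, fun s hs => ⟨s, hs, S.self n s⟩⟩

theorem W_anti (m n : ℕ) (hmn : m ≤ n) (x : (L → Bool) × Finset Z) :
    W S ι n x ⊆ W S ι m x := by
  rintro y (⟨h1, h2, h3⟩ | ⟨η, h1, ⟨s, hs, h2⟩, h3, h4⟩)
  · refine Or.inl ⟨h1, fun t ht => ?_, fun s hs => ?_⟩
    · obtain ⟨s, hs, h⟩ := h2 t ht
      exact ⟨s, hs, S.anti _ _ hmn _ h⟩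
    · obtain ⟨t, ht, h⟩ := h3 s hs
      exact ⟨t, ht, S.anti _ _ hmn _ h⟩
  · refine Or.inr ⟨η, h1, ⟨s, hs, S.anti _ _ hmn _ h2⟩, h3, fun t ht => ?_⟩
    obtain ⟨s, hs, h⟩ := h4 t ht
    exact ⟨s, hs, S.anti _ _ hmn _ h⟩

theorem W_open (n : ℕ) (x y : (L → Bool) × Finset Z) (hy : y ∈ W S ι n x) :
    ∃ m, W S ι m y ⊆ W S ι n x := by
  obtain ⟨m0, hm0⟩ := exists_sep S y.2 x.2
  obtain ⟨m2, hm2⟩ := exists_opn S n x.2 y.2
  rcases hy with ⟨h1, h2, h3⟩ | ⟨δ, h1, ⟨s0, hs0, h2⟩, h3, h4⟩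
  · refine ⟨max m2 m0, ?_⟩
    have l0 : m2 ≤ max m2 m0 := le_max_left _ _
    have l1 : m0 ≤ max m2 m0 := le_max_right _ _
    rintro z (⟨g1, g2, g3⟩ | ⟨η, g1, ⟨s', hs', g2⟩, g3, g4⟩)
    · refine Or.inl ⟨g1.trans h1, fun t ht => ?_, fun s hs => ?_⟩
      · obtain ⟨s', hs', h⟩ := g2 t ht
        obtain ⟨s, hs, h'⟩ := h2 s' hs'
        exact ⟨s, hs, hm2 s hs s' hs' h' (S.anti _ _ l0 _ h)⟩
      · obtain ⟨t, ht, h⟩ := h3 s hs
        obtain ⟨t', ht', h'⟩ := g3 t ht
        exact ⟨t', ht', hm2 s hs t ht h (S.anti _ _ l0 _ h')⟩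
    · obtain ⟨s, hs, hss⟩ := h2 s' hs'
      refine Or.inr ⟨η, h1 ▸ g1, ⟨s, hs, hm2 s hs s' hs' hss (S.anti _ _ l0 _ g2)⟩, ?_, ?_⟩
      · intro hη
        have := hm0 s' hs' _ hη (S.anti _ _ l1 _ g2)
        exact g3 (this ▸ hs')
      · intro t ht
        obtain ⟨s', hs', h⟩ := g4 t ht
        obtain ⟨s, hs, h'⟩ := h2 s' hs'
        exact ⟨s, hs, hm2 s hs s' hs' h' (S.anti _ _ l0 _ h)⟩
  · obtain ⟨m1, hm1⟩ := exists_sep S y.2 {ι δ}
    refine ⟨max m2 (max m0 m1), ?_⟩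
    have l0 : m2 ≤ max m2 (max m0 m1) := le_max_left _ _
    have l1 : m0 ≤ max m2 (max m0 m1) := (le_max_left _ _).trans (le_max_right _ _)
    have l2 : m1 ≤ max m2 (max m0 m1) := (le_max_right _ _).trans (le_max_right _ _)
    rintro z (⟨g1, g2, g3⟩ | ⟨η, g1, ⟨s', hs', g2⟩, g3, g4⟩)
    · refine Or.inr ⟨δ, g1 ▸ h1, ⟨s0, hs0, h2⟩, h3, fun t ht => ?_⟩
      obtain ⟨s', hs', h⟩ := g2 t ht
      obtain ⟨s, hs, h'⟩ := h4 s' hs'
      exact ⟨s, hs, hm2 s hs s' hs' h' (S.anti _ _ l0 _ h)⟩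
    · have key : ∀ t ∈ z.2, ∃ s ∈ x.2, t ∈ S.U n s := by
        intro t ht
        obtain ⟨s', hs', h⟩ := g4 t ht
        obtain ⟨s, hs, h'⟩ := h4 s' hs'
        exact ⟨s, hs, hm2 s hs s' hs' h' (S.anti _ _ l0 _ h)⟩
      rcases lt_trichotomy η δ with h5 | h5 | h5
      · obtain ⟨s, hs, hss⟩ := h4 s' hs'
        refine Or.inr ⟨η, ⟨fun ζ hζ => (h1.1 ζ (hζ.trans h5)).trans (g1.1 ζ hζ), ?_⟩,
          ⟨s, hs, hm2 s hs s' hs' hss (S.anti _ _ l0 _ g2)⟩, ?_, key⟩
        · rw [h1.1 η h5]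
          exact g1.2
        · intro hη
          have := hm0 s' hs' _ hη (S.anti _ _ l1 _ g2)
          exact g3 (this ▸ hs')
      · exfalso
        subst h5
        have := hm1 s' hs' _ (Finset.mem_singleton_self _) (S.anti _ _ l2 _ g2)
        exact g3 (this ▸ hs')
      · refine Or.inr ⟨δ, ⟨fun ζ hζ => (h1.1 ζ hζ).trans (g1.1 ζ (hζ.trans h5)), ?_⟩,
          ⟨s0, hs0, h2⟩, h3, key⟩
        rw [← g1.1 δ h5]
        exact h1.2

theorem W_sep [WellFoundedLT L] (x y : (L → Bool) × Finset Z) (hyx : y ≠ x) :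
    ∃ n, y ∉ W S ι n x := by
  by_cases h : y.1 = x.1
  · have h2 : y.2 ≠ x.2 := fun h2 => hyx (Prod.ext h h2)
    obtain ⟨n, hn⟩ := exists_sep S x.2 y.2
    refine ⟨n, ?_⟩
    rintro (⟨-, g1, g2⟩ | ⟨η, g, -⟩)
    · apply h2
      ext s
      constructor
      · intro hs
        obtain ⟨t, ht, hst⟩ := g1 s hs
        rw [hn t ht s hs hst]
        exact ht
      · intro ht
        obtain ⟨s', hs', hst⟩ := g2 s ht
        rw [← hn s ht s' hs' hst]
        exact hs'
    · exact g.2 (by rw [h])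
  · obtain ⟨δ, hδ⟩ := exists_FD (Ne.symm h)
    obtain ⟨n, hn⟩ := exists_sep S x.2 {ι δ}
    refine ⟨n, ?_⟩
    rintro (⟨g1, -⟩ | ⟨η, g1, ⟨s, hs, g2⟩, g3, -⟩)
    · exact h g1
    · obtain rfl : η = δ := g1.unique hδ
      have := hn s hs _ (Finset.mem_singleton_self _) g2
      exact g3 (this ▸ hs)

/-- Limits of finite subsets of a relatively compact set along an ultrafilter. -/
theorem exists_lim [Nonempty Z] (M : ℕ) {T : Type u} (F : Ultrafilter T) :
    ∀ (k : ℕ) (A : T → Finset Z), (∀ᶠ t in (F : Filter T), (A t).card ≤ k) →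
      (∀ᶠ t in (F : Filter T), ∀ s ∈ A t, s ∈ S.P M) →
      ∃ B : Finset Z, ∀ n, ∀ᶠ t in (F : Filter T), V S n B (A t) := by
  classical
  intro k
  induction k with
  | zero =>
    intro A h1 _
    refine ⟨∅, fun n => h1.mono (fun t ht => ?_)⟩
    have : A t = ∅ := Finset.card_eq_zero.1 (Nat.le_zero.1 ht)
    rw [this]
    exact ⟨fun t ht => absurd ht (Finset.notMem_empty _),
      fun t ht => absurd ht (Finset.notMem_empty _)⟩
  | succ k ih =>
    intro A h1 h2
    by_cases hne : ∀ᶠ t in (F : Filter T), (A t).Nonempty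
    · let a : T → Z := fun t => if h : (A t).Nonempty then h.choose else Classical.arbitrary Z
      have ha : ∀ t, (A t).Nonempty → a t ∈ A t := by
        intro t h
        simp only [a, dif_pos h]
        exact h.choose_spec
      obtain ⟨B, hB⟩ := ih (fun t => (A t).erase (a t))
        (by
          filter_upwards [h1, hne] with t ht hn
          rw [Finset.card_erase_of_mem (ha t hn)]
          omega)
        (by
          filter_upwards [h2] with t ht s hs
          exact ht s (Finset.mem_of_mem_erase hs))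
      obtain ⟨z, hz⟩ := S.conv M (F.map a) (by
        show a ⁻¹' (S.P M) ∈ (F : Filter T)
        filter_upwards [h2, hne] with t ht hn
        exact ht _ (ha t hn))
      refine ⟨insert z B, fun n => ?_⟩
      have hzn : ∀ᶠ t in (F : Filter T), a t ∈ S.U n z := hz n
      filter_upwards [hB n, hzn, hne] with t h3 h4 hn
      constructor
      · intro s hs
        by_cases hsa : s = a t
        · exact ⟨z, Finset.mem_insert_self _ _, hsa ▸ h4⟩
        · obtain ⟨b, hb, hb'⟩ := h3.1 s (Finset.mem_erase.2 ⟨hsa, hs⟩)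
          exact ⟨b, Finset.mem_insert_of_mem hb, hb'⟩
      · intro s hs
        rcases Finset.mem_insert.1 hs with rfl | hs
        · exact ⟨a t, ha t hn, h4⟩
        · obtain ⟨b, hb, hb'⟩ := h3.2 s hs
          exact ⟨b, Finset.mem_of_mem_erase hb, hb'⟩
    · rw [← Ultrafilter.eventually_not] at hne
      refine ih A ?_ h2
      filter_upwards [hne] with t ht
      rw [Finset.not_nonempty_iff_eq_empty.1 ht]
      simp

theorem W_conv [WellFoundedLT L] [Nonempty Z] (hι : ∀ l, ι l ∈ S.P 0)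
    (hinj : Function.Injective ι) (M : ℕ) (F : Ultrafilter ((L → Bool) × Finset Z))
    (hF : {x : (L → Bool) × Finset Z | x.2.card ≤ M ∧ ∀ s ∈ x.2, s ∈ S.P M} ∈ F) :
    ∃ x, ∀ n, W S ι n x ∈ F := by
  classical
  have hF' : ∀ᶠ x in (F : Filter ((L → Bool) × Finset Z)),
      x.2.card ≤ M ∧ ∀ s ∈ x.2, s ∈ S.P M := hF
  obtain ⟨B, hB⟩ := exists_lim S M F M (fun x => x.2) (hF'.mono (fun x hx => hx.1))
    (hF'.mono (fun x hx => hx.2))
  let a : L → Bool := fun η => decide (∀ᶠ x in (F : Filter ((L → Bool) × Finset Z)),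
    x.1 η = true)
  have ha : ∀ η, ∀ᶠ x in (F : Filter ((L → Bool) × Finset Z)), x.1 η = a η := by
    intro η
    by_cases h : ∀ᶠ x in (F : Filter ((L → Bool) × Finset Z)), x.1 η = true
    · have : a η = true := decide_eq_true h
      rw [this]
      exact h
    · have : a η = false := decide_eq_false h
      rw [this]
      rw [← Ultrafilter.eventually_not] at h
      exact h.mono (fun x hx => by simpa using hx)
  by_cases hc : ∀ᶠ x in (F : Filter ((L → Bool) × Finset Z)), x.1 = a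
  · refine ⟨(a, B), fun n => ?_⟩
    have : ∀ᶠ x in (F : Filter ((L → Bool) × Finset Z)), x ∈ W S ι n (a, B) := by
      filter_upwards [hc, hB n] with x h1 h2
      exact Or.inl ⟨h1, h2⟩
    exact this
  · rw [← Ultrafilter.eventually_not] at hc
    obtain ⟨x0, hx0⟩ := hc.exists
    obtain ⟨l0, -⟩ := exists_FD (Ne.symm hx0)
    let δ : (L → Bool) × Finset Z → L := fun x =>
      if h : a ≠ x.1 then (exists_FD h).choose else l0
    have hδ : ∀ x : (L → Bool) × Finset Z, ¬ x.1 = a → FD a x.1 (δ x) := by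
      intro x hx
      have h : a ≠ x.1 := Ne.symm hx
      simp only [δ, dif_pos h]
      exact (exists_FD h).choose_spec
    obtain ⟨z, hz⟩ := S.conv 0 (F.map (fun x => ι (δ x))) (by
      show (fun x => ι (δ x)) ⁻¹' (S.P 0) ∈ (F : Filter ((L → Bool) × Finset Z))
      exact Filter.univ_mem' (fun x => hι _))
    have hnot : ∀ᶠ x in (F : Filter ((L → Bool) × Finset Z)), ι (δ x) ∉ insert z B := by
      have h1 : ∀ s ∈ insert z B,
          ∀ᶠ x in (F : Filter ((L → Bool) × Finset Z)), ι (δ x) ≠ s := by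
        intro s _
        by_contra hcon
        rw [← Ultrafilter.eventually_not] at hcon
        obtain ⟨x1, hx1⟩ := hcon.exists
        have hx1' : ι (δ x1) = s := not_not.1 hx1
        obtain ⟨x2, ⟨h3, h4⟩, h5⟩ := ((hcon.and hc).and (ha (δ x1))).exists
        have h6 : δ x2 = δ x1 := hinj ((not_not.1 h3).trans hx1'.symm)
        have h7 := hδ x2 h4
        rw [h6] at h7
        exact h7.2 h5.symm
      have h2 := (eventually_all_finset (insert z B)).2 h1
      filter_upwards [h2] with x hx hmem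
      exact hx _ hmem rfl
    refine ⟨(a, insert z B), fun n => ?_⟩
    have hzn : ∀ᶠ x in (F : Filter ((L → Bool) × Finset Z)), ι (δ x) ∈ S.U n z := hz n
    have : ∀ᶠ x in (F : Filter ((L → Bool) × Finset Z)), x ∈ W S ι n (a, insert z B) := by
      filter_upwards [hc, hnot, hzn, hB n] with x h1 h2 h3 h4
      refine Or.inr ⟨δ x, hδ x h1, ⟨z, Finset.mem_insert_self _ _, h3⟩, h2, fun t ht => ?_⟩
      obtain ⟨s, hs, hs'⟩ := h4.1 t ht
      exact ⟨s, Finset.mem_insert_of_mem hs, hs'⟩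
    exact this

/-- The exponential space. -/
def expSp [WellFoundedLT L] [Nonempty Z] (hι : ∀ l, ι l ∈ S.P 0)
    (hinj : Function.Injective ι) : Sp ((L → Bool) × Finset Z) where
  U := W S ι
  P M := {x | x.2.card ≤ M ∧ ∀ s ∈ x.2, s ∈ S.P M}
  self := W_self S ι
  anti := W_anti S ι
  opn := W_open S ι
  sep := W_sep S ι
  mono := by
    rintro m n hmn x ⟨h1, h2⟩
    exact ⟨h1.trans hmn, fun s hs => S.mono hmn (h2 s hs)⟩
  cov x := by
    choose M hM using S.cov
    refine ⟨max x.2.card (x.2.sup M), le_max_left _ _, fun s hs => ?_⟩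
    exact S.mono ((Finset.le_sup hs).trans (le_max_right _ _)) (hM s)
  conv M F hF := W_conv S ι hι hinj M F hF

theorem big_pow {κ : Cardinal.{u}} (h : Big κ) : Big (2 ^ κ) := by
  obtain ⟨Z, S, hne, hκ⟩ := h
  let L : Type u := S.P 0
  letI : LinearOrder L := IsWellOrder.linearOrder (WellOrderingRel (α := L))
  haveI : WellFoundedLT L := ⟨(IsWellOrder.toIsWellFounded (r := WellOrderingRel (α := L))).wf⟩
  let ι : L → Z := Subtype.val
  have hι : ∀ l, ι l ∈ S.P 0 := fun l => l.2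
  have hinj : Function.Injective ι := Subtype.val_injective
  refine ⟨(L → Bool) × Finset Z, expSp S ι hι hinj, ⟨(fun _ => false, ∅)⟩, ?_⟩
  have h1 : Cardinal.mk (L → Bool) ≤ Cardinal.mk ((expSp S ι hι hinj).P 0) := by
    refine Cardinal.mk_le_of_injective
      (f := fun a => (⟨(a, ∅), by simp, by simp⟩ : (expSp S ι hι hinj).P 0)) ?_
    intro a b hab
    exact congrArg (fun x => x.1.1) hab
  refine le_trans ?_ h1
  have h2 : Cardinal.mk (L → Bool) = 2 ^ Cardinal.mk L := by simp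
  rw [h2]
  exact Cardinal.power_le_power_left two_ne_zero hκ

end Pool.Agent.N515.Lind
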