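import Mathlib

/-!
# First countable T₁ spaces which are countable unions of relatively compact sets

`Sp Z` packages a first countable T₁ topology on `Z`, given by decreasing sequences `U n z` of open
neighbourhoods, together with an increasing sequence of sets `P M` covering `Z` such that every
ultrafilter containing some `P M` converges. Such spaces are Lindelöf, and so are all their finite
powers. `Big κ` means that there is such a space with `P 0` of cardinality at least `κ`.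
-/

set_option autoImplicit false
universe u

namespace Pool.Agent.N515.Lind

open Set Filter Topology

/-- A first countable T₁ topology with a cover by countably many relatively compact sets. -/
structure Sp (Z : Type u) where
  /-- basic neighbourhoods -/
  U : ℕ → Z → Set Z
  /-- relatively compact pieces -/
  P : ℕ → Set Z
  self : ∀ n z, z ∈ U n z
  anti : ∀ m n : ℕ, m ≤ n → ∀ z, U n z ⊆ U m z
  opn : ∀ n z y, y ∈ U n z → ∃ m, U m y ⊆ U n z
  sep : ∀ z y, y ≠ z → ∃ n, y ∉ U n z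
  mono : Monotone P
  cov : ∀ z, ∃ M, z ∈ P M
  conv : ∀ (M : ℕ) (F : Ultrafilter Z), P M ∈ F → ∃ z, ∀ n, U n z ∈ F

namespace Sp

variable {Z : Type u} (S : Sp Z)

/-- The space. -/
def Space (_ : Sp Z) : Type u := Z

instance instTop : TopologicalSpace S.Space where
  IsOpen O := ∀ x ∈ O, ∃ n, S.U n x ⊆ O
  isOpen_univ := fun _ _ => ⟨0, subset_univ _⟩
  isOpen_inter := by
    rintro s t hs ht x ⟨hxs, hxt⟩
    obtain ⟨n, hn⟩ := hs x hxs
    obtain ⟨m, hm⟩ := ht x hxt
    exact ⟨max n m, subset_inter ((S.anti _ _ (le_max_left _ _) x).trans hn)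
      ((S.anti _ _ (le_max_right _ _) x).trans hm)⟩
  isOpen_sUnion := by
    rintro s hs x ⟨t, hts, hxt⟩
    obtain ⟨n, hn⟩ := hs t hts x hxt
    exact ⟨n, hn.trans (subset_sUnion_of_mem hts)⟩

theorem isOpen_iff {O : Set S.Space} : IsOpen O ↔ ∀ x ∈ O, ∃ n, S.U n x ⊆ O := Iff.rfl

theorem isOpen_U (n : ℕ) (x : Z) : IsOpen (X := S.Space) (S.U n x) := fun y hy => S.opn n x y hy

theorem nhds_basis (x : S.Space) :
    (𝓝 x).HasBasis (fun _ : ℕ => True) (fun n => S.U n x) := by
  refine ⟨fun s => ?_⟩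
  rw [mem_nhds_iff]
  constructor
  · rintro ⟨t, hts, ht, hx⟩
    obtain ⟨n, hn⟩ := ht x hx
    exact ⟨n, trivial, hn.trans hts⟩
  · rintro ⟨n, -, hn⟩
    exact ⟨S.U n x, hn, S.isOpen_U n x, S.self n x⟩

instance instFC : FirstCountableTopology S.Space where
  nhds_generated_countable x := (S.nhds_basis x).isCountablyGenerated

instance instT1 : T1Space S.Space where
  t1 x := by
    rw [← isOpen_compl_iff, S.isOpen_iff]
    intro y hy
    have hxy : x ≠ y := fun h => hy h.symm
    obtain ⟨n, hn⟩ := S.sep y x hxy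
    refine ⟨n, fun z hz => ?_⟩
    intro hzx
    have hzx' : z = x := hzx
    exact hn (hzx' ▸ hz)

theorem tendsto_of_mem (F : Ultrafilter S.Space) (M : ℕ) (h : S.P M ∈ F) :
    ∃ z : S.Space, (F : Filter S.Space) ≤ 𝓝 z := by
  obtain ⟨z, hz⟩ := S.conv M F h
  refine ⟨z, ?_⟩
  rw [(S.nhds_basis z).ge_iff]
  intro n _
  exact hz n

end Sp

/-- A countable union of relatively compact sets is Lindelöf. -/
theorem lindelof_of_conv {Y : Type*} [TopologicalSpace Y] (K : ℕ → Set Y)
    (hcov : ∀ y, ∃ M, y ∈ K M)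
    (hconv : ∀ (M : ℕ) (F : Ultrafilter Y), K M ∈ F → ∃ y, (F : Filter Y) ≤ 𝓝 y) :
    LindelofSpace Y := by
  refine ⟨?_⟩
  intro f _ _ _
  have hM : ∃ M, ∃ᶠ y in f, y ∈ K M := by
    by_contra hc
    have hc' : ∀ M : ℕ, ∀ᶠ y in f, y ∉ K M := by
      intro M
      by_contra hh
      exact hc ⟨M, hh⟩
    obtain ⟨y, hy⟩ := (eventually_countable_forall.2 hc').exists
    obtain ⟨M, hM⟩ := hcov y
    exact hy M hM
  obtain ⟨M, hM⟩ := hM
  have : NeBot (f ⊓ 𝓟 (K M)) := frequently_mem_iff_neBot.1 hM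
  let F := Ultrafilter.of (f ⊓ 𝓟 (K M))
  have hF : (F : Filter Y) ≤ f ⊓ 𝓟 (K M) := Ultrafilter.of_le _
  have hK : K M ∈ F := hF (mem_inf_of_right (mem_principal_self _))
  obtain ⟨y, hy⟩ := hconv M F hK
  refine ⟨y, mem_univ y, ?_⟩
  have : NeBot (F : Filter Y) := F.neBot
  exact neBot_of_le (le_inf hy (hF.trans inf_le_left))

theorem Sp.lindelof_pow {Z : Type u} (S : Sp Z) (k : ℕ) : LindelofSpace (Fin k → S.Space) := by
  refine lindelof_of_conv (fun M => {y | ∀ i, y i ∈ S.P M}) ?_ ?_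
  · intro y
    choose M hM using fun i => S.cov (y i)
    refine ⟨Finset.univ.sup M, fun i => ?_⟩
    exact S.mono (Finset.le_sup (Finset.mem_univ i)) (hM i)
  · intro M F hF
    have h : ∀ i : Fin k, ∃ z : S.Space, (F.map (fun y => y i) : Filter S.Space) ≤ 𝓝 z := by
      intro i
      refine S.tendsto_of_mem _ M ?_
      exact mem_of_superset (x := {y : Fin k → S.Space | ∀ i, y i ∈ S.P M}) hF
        (fun y hy => hy i)
    choose z hz using h
    refine ⟨z, ?_⟩
    rw [nhds_pi, Filter.pi, le_iInf_iff]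
    intro i
    rw [← map_le_iff_le_comap]
    exact hz i

/-- There is a space as above with `P 0` of cardinality at least `κ`. -/
def Big (κ : Cardinal.{u}) : Prop :=
  ∃ (Z : Type u) (S : Sp Z), Nonempty Z ∧ κ ≤ Cardinal.mk (S.P 0)

theorem Big.mono {κ κ' : Cardinal.{u}} (h : Big κ') (hk : κ ≤ κ') : Big κ := by
  obtain ⟨Z, S, h1, h2⟩ := h
  exact ⟨Z, S, h1, hk.trans h2⟩

/-- The convergent sequence. -/
def seqSp : Sp (ULift.{u} (Option ℕ)) where
  U n z := {y | y = z ∨ (z.down = none ∧ ∀ k, y.down = some k → n ≤ k)}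
  P _ := univ
  self n z := Or.inl rfl
  anti m n hmn z := by
    rintro y (h | ⟨h, h'⟩)
    · exact Or.inl h
    · exact Or.inr ⟨h, fun k hk => hmn.trans (h' k hk)⟩
  opn n z y hy := by
    rcases hy with h | ⟨h, h'⟩
    · exact ⟨n, h ▸ subset_rfl⟩
    · refine ⟨n, ?_⟩
      rintro x (hx | ⟨hx, hx'⟩)
      · exact Or.inr ⟨h, hx ▸ h'⟩
      · exact Or.inr ⟨h, hx'⟩
  sep z y hyz := by
    by_cases h : y.down = none
    · refine ⟨0, ?_⟩
      rintro (h1 | ⟨h1, -⟩)
      · exact hyz h1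
      · exact hyz (ULift.ext _ _ (h.trans h1.symm))
    · obtain ⟨k, hk⟩ := Option.ne_none_iff_exists'.1 h
      refine ⟨k + 1, ?_⟩
      rintro (h1 | ⟨-, h2⟩)
      · exact hyz h1
      · exact absurd (h2 k hk) (by omega)
  mono := fun _ _ _ => subset_rfl
  cov z := ⟨0, mem_univ z⟩
  conv M F _ := by
    by_cases h : ∃ z, {z} ∈ F
    · obtain ⟨z, hz⟩ := h
      refine ⟨z, fun n => mem_of_superset hz ?_⟩
      rintro y rfl
      exact Or.inl rfl
    · refine ⟨⟨none⟩, fun n => ?_⟩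
      have h1 : ∀ k ∈ Finset.range n, ({⟨some k⟩} : Set (ULift.{u} (Option ℕ)))ᶜ ∈ F := by
        intro k _
        rw [Ultrafilter.compl_mem_iff_notMem]
        exact fun hh => h ⟨_, hh⟩
      have h2 : (⋂ k ∈ Finset.range n, ({⟨some k⟩} : Set (ULift.{u} (Option ℕ)))ᶜ) ∈
          (F : Filter _) := (biInter_finset_mem _).2 h1
      refine mem_of_superset h2 ?_
      intro y hy
      refine Or.inr ⟨rfl, fun k hk => ?_⟩
      by_contra hlt
      have := mem_iInter₂.1 hy k (Finset.mem_range.2 (not_le.1 hlt))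
      exact this (ULift.ext _ _ hk)

theorem big_aleph0 : Big.{u} Cardinal.aleph0 := by
  refine ⟨_, seqSp, ⟨⟨none⟩⟩, ?_⟩
  have h : Cardinal.mk ((seqSp.{u}).P 0) = Cardinal.mk (ULift.{u} (Option ℕ)) :=
    Cardinal.mk_univ
  rw [h]
  have : Infinite (ULift.{u} (Option ℕ)) := inferInstance
  exact Cardinal.aleph0_le_mk _

end Pool.Agent.N515.Lind
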