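import Pool.Agent.N515.Lind.Exp

/-!
# The sum step and all cardinals below the first inaccessible cardinal
-/

set_option autoImplicit false
universe u

namespace Pool.Agent.N515.Lind

open Set Filter Topology

section

variable {Z : Type u} (S : Sp Z) {Zf : S.P 0 → Type u} (Sf : ∀ i, Sp (Zf i))

/-- The basic neighbourhoods in the sum. -/
def SU (n : ℕ) : (Z ⊕ (Σ i : S.P 0, Zf i)) → Set (Z ⊕ (Σ i : S.P 0, Zf i))
  | Sum.inl z => {x | (∃ w, x = Sum.inl w ∧ w ∈ S.U n z) ∨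
      ∃ (i : S.P 0) (w : Zf i), x = Sum.inr ⟨i, w⟩ ∧ i.1 ∈ S.U n z ∧ i.1 ≠ z}
  | Sum.inr ⟨i, w⟩ => {x | ∃ v, x = Sum.inr ⟨i, v⟩ ∧ v ∈ (Sf i).U n w}

/-- The relatively compact pieces of the sum. -/
def SP (M : ℕ) : Set (Z ⊕ (Σ i : S.P 0, Zf i)) :=
  {x | (∃ w, x = Sum.inl w ∧ w ∈ S.P M) ∨
    ∃ (i : S.P 0) (w : Zf i), x = Sum.inr ⟨i, w⟩ ∧ w ∈ (Sf i).P M}

theorem SU_conv (M : ℕ) (F : Ultrafilter (Z ⊕ (Σ i : S.P 0, Zf i))) (hF : SP S Sf M ∈ F) :
    ∃ x, ∀ n, SU S Sf n x ∈ F := by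
  classical
  by_cases h1 : range (Sum.inl : Z → Z ⊕ (Σ i : S.P 0, Zf i)) ∈ F
  · let G := F.comap (m := (Sum.inl : Z → Z ⊕ (Σ i : S.P 0, Zf i))) Sum.inl_injective h1
    have hG : ∀ A : Set (Z ⊕ (Σ i : S.P 0, Zf i)), Sum.inl ⁻¹' A ∈ G ↔ A ∈ F := by
      intro A
      constructor
      · intro hA
        rw [Ultrafilter.mem_comap] at hA
        exact mem_of_superset hA (by rintro x ⟨z, hz, rfl⟩; exact hz)
      · intro hA
        rw [Ultrafilter.mem_comap]
        refine mem_of_superset (inter_mem hA h1) ?_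
        rintro x ⟨hx, z, rfl⟩
        exact ⟨z, hx, rfl⟩
    obtain ⟨z, hz⟩ := S.conv M G (by
      refine mem_of_superset ((hG _).2 hF) ?_
      rintro z (⟨w, hw, hw'⟩ | ⟨i, w, hw, -⟩)
      · rw [Sum.inl.inj hw]
        exact hw'
      · exact absurd hw (by simp))
    refine ⟨Sum.inl z, fun n => (hG _).1 ?_⟩
    refine mem_of_superset (hz n) ?_
    intro w hw
    exact Or.inl ⟨w, rfl, hw⟩
  · rw [← Ultrafilter.compl_mem_iff_notMem] at h1
    have hne : Nonempty (S.P 0) := by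
      obtain ⟨x, hx⟩ := F.nonempty_of_mem h1
      rcases x with z | ⟨i, w⟩
      · exact absurd ⟨z, rfl⟩ hx
      · exact ⟨i⟩
    let idx : (Z ⊕ (Σ i : S.P 0, Zf i)) → Z := fun x =>
      Sum.elim (fun z => z) (fun p => p.1.1) x
    by_cases h2 : ∃ i : S.P 0, range (fun w : Zf i => (Sum.inr ⟨i, w⟩ :
        Z ⊕ (Σ i : S.P 0, Zf i))) ∈ F
    · obtain ⟨i, hi⟩ := h2
      have hinj : Function.Injective (fun w : Zf i => (Sum.inr ⟨i, w⟩ :
          Z ⊕ (Σ i : S.P 0, Zf i))) := by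
        intro w w' hww
        have := Sum.inr.inj hww
        exact eq_of_heq (Sigma.mk.inj this).2
      let G := F.comap hinj hi
      have hG : ∀ A : Set (Z ⊕ (Σ i : S.P 0, Zf i)),
          (fun w : Zf i => (Sum.inr ⟨i, w⟩ : Z ⊕ (Σ i : S.P 0, Zf i))) ⁻¹' A ∈ G ↔ A ∈ F := by
        intro A
        constructor
        · intro hA
          rw [Ultrafilter.mem_comap] at hA
          exact mem_of_superset hA (by rintro x ⟨z, hz, rfl⟩; exact hz)
        · intro hA
          rw [Ultrafilter.mem_comap]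
          refine mem_of_superset (inter_mem hA hi) ?_
          rintro x ⟨hx, z, rfl⟩
          exact ⟨z, hx, rfl⟩
      obtain ⟨z, hz⟩ := (Sf i).conv M G (by
        refine mem_of_superset ((hG _).2 hF) ?_
        rintro w (⟨v, hv, -⟩ | ⟨j, v, hv, hv'⟩)
        · exact absurd hv (by simp)
        · obtain ⟨rfl, h⟩ := Sigma.mk.inj (Sum.inr.inj hv)
          rw [eq_of_heq h]
          exact hv')
      refine ⟨Sum.inr ⟨i, z⟩, fun n => (hG _).1 ?_⟩
      refine mem_of_superset (hz n) ?_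
      intro w hw
      exact ⟨w, rfl, hw⟩
    · obtain ⟨z, hz⟩ := S.conv 0 (F.map idx) (by
        show idx ⁻¹' (S.P 0) ∈ F
        refine mem_of_superset h1 ?_
        intro x hx
        rcases x with z | ⟨i, w⟩
        · exact absurd ⟨z, rfl⟩ hx
        · exact i.2)
      have h3 : {x | idx x ≠ z} ∈ F := by
        by_contra hcon
        rw [← Ultrafilter.compl_mem_iff_notMem] at hcon
        obtain ⟨x, hx⟩ := F.nonempty_of_mem (inter_mem hcon h1)
        rcases x with w | ⟨i, w⟩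
        · exact hx.2 ⟨w, rfl⟩
        · apply h2
          refine ⟨i, mem_of_superset (inter_mem hcon h1) ?_⟩
          rintro y ⟨hy, hy'⟩
          rcases y with v | ⟨j, v⟩
          · exact absurd ⟨v, rfl⟩ hy'
          · have e1 : j.1 = z := not_not.1 hy
            have e2 : i.1 = z := not_not.1 hx.1
            obtain rfl : j = i := Subtype.ext (e1.trans e2.symm)
            exact ⟨v, rfl⟩
      refine ⟨Sum.inl z, fun n => ?_⟩
      have h4 : idx ⁻¹' (S.U n z) ∈ F := hz n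
      refine mem_of_superset (inter_mem (inter_mem h4 h3) h1) ?_
      rintro x ⟨⟨hx1, hx2⟩, hx3⟩
      rcases x with v | ⟨j, v⟩
      · exact absurd ⟨v, rfl⟩ hx3
      · exact Or.inr ⟨j, v, rfl, hx1, hx2⟩

/-- The sum. -/
def sumSp : Sp (Z ⊕ (Σ i : S.P 0, Zf i)) where
  U := SU S Sf
  P := SP S Sf
  self := by
    rintro n (z | ⟨i, w⟩)
    · exact Or.inl ⟨z, rfl, S.self n z⟩
    · exact ⟨w, rfl, (Sf i).self n w⟩
  anti := by
    rintro m n hmn (z | ⟨i, w⟩) x hx
    · rcases hx with ⟨w, rfl, hw⟩ | ⟨i, w, rfl, h1, h2⟩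
      · exact Or.inl ⟨w, rfl, S.anti _ _ hmn _ hw⟩
      · exact Or.inr ⟨i, w, rfl, S.anti _ _ hmn _ h1, h2⟩
    · obtain ⟨v, rfl, hv⟩ := hx
      exact ⟨v, rfl, (Sf i).anti _ _ hmn _ hv⟩
  opn := by
    rintro n (z | ⟨i, w⟩) x hx
    · rcases hx with ⟨w, rfl, hw⟩ | ⟨i, w, rfl, h1, h2⟩
      · obtain ⟨m, hm⟩ := S.opn n z w hw
        by_cases hwz : w = z
        · subst hwz
          exact ⟨n, subset_rfl⟩
        · obtain ⟨k, hk⟩ := S.sep w z (Ne.symm hwz)
          refine ⟨max m k, ?_⟩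
          rintro y (⟨v, rfl, hv⟩ | ⟨j, v, rfl, g1, g2⟩)
          · exact Or.inl ⟨v, rfl, hm (S.anti _ _ (le_max_left _ _) _ hv)⟩
          · refine Or.inr ⟨j, v, rfl, hm (S.anti _ _ (le_max_left _ _) _ g1), ?_⟩
            intro hj
            exact hk (hj ▸ S.anti _ _ (le_max_right _ _) _ g1)
      · refine ⟨0, ?_⟩
        rintro y ⟨v, rfl, -⟩
        exact Or.inr ⟨i, v, rfl, h1, h2⟩
    · obtain ⟨v, rfl, hv⟩ := hx
      obtain ⟨m, hm⟩ := (Sf i).opn n w v hv
      refine ⟨m, ?_⟩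
      rintro y ⟨v', rfl, hv'⟩
      exact ⟨v', rfl, hm hv'⟩
  sep := by
    rintro (z | ⟨i, w⟩) x hx
    · rcases x with v | ⟨j, v⟩
      · have hvz : v ≠ z := fun h => hx (by rw [h])
        obtain ⟨n, hn⟩ := S.sep z v hvz
        refine ⟨n, ?_⟩
        rintro (⟨w, hw, hw'⟩ | ⟨i, w, hw, -⟩)
        · rw [Sum.inl.inj hw] at hn
          exact hn hw'
        · exact absurd hw (by simp)
      · by_cases hj : j.1 = z
        · refine ⟨0, ?_⟩
          rintro (⟨w, hw, -⟩ | ⟨i, w, hw, -, h2⟩)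
          · exact absurd hw (by simp)
          · obtain ⟨rfl, -⟩ := Sigma.mk.inj (Sum.inr.inj hw)
            exact h2 hj
        · obtain ⟨n, hn⟩ := S.sep z j.1 hj
          refine ⟨n, ?_⟩
          rintro (⟨w, hw, -⟩ | ⟨i, w, hw, h1, -⟩)
          · exact absurd hw (by simp)
          · obtain ⟨rfl, -⟩ := Sigma.mk.inj (Sum.inr.inj hw)
            exact hn h1
    · rcases x with v | ⟨j, v⟩
      · refine ⟨0, ?_⟩
        rintro ⟨u, hu, -⟩
        exact absurd hu (by simp)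
      · by_cases hj : j = i
        · subst hj
          have hvw : v ≠ w := fun h => hx (by rw [h])
          obtain ⟨n, hn⟩ := (Sf j).sep w v hvw
          refine ⟨n, ?_⟩
          rintro ⟨u, hu, hu'⟩
          have := (Sigma.mk.inj (Sum.inr.inj hu)).2
          rw [eq_of_heq this] at hn
          exact hn hu'
        · refine ⟨0, ?_⟩
          rintro ⟨u, hu, -⟩
          exact hj (Sigma.mk.inj (Sum.inr.inj hu)).1
  mono := by
    rintro m n hmn x (⟨w, rfl, hw⟩ | ⟨i, w, rfl, hw⟩)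
    · exact Or.inl ⟨w, rfl, S.mono hmn hw⟩
    · exact Or.inr ⟨i, w, rfl, (Sf i).mono hmn hw⟩
  cov := by
    rintro (z | ⟨i, w⟩)
    · obtain ⟨M, hM⟩ := S.cov z
      exact ⟨M, Or.inl ⟨z, rfl, hM⟩⟩
    · obtain ⟨M, hM⟩ := (Sf i).cov w
      exact ⟨M, Or.inr ⟨i, w, rfl, hM⟩⟩
  conv := SU_conv S Sf

end

/-- A sum of `Big` cardinals over a relatively compact index set is `Big`. -/
theorem big_sum {Z : Type u} (S : Sp Z) [Nonempty Z] (κ : S.P 0 → Cardinal.{u})
    (h : ∀ i, Big (κ i)) : Big (Cardinal.sum κ) := by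
  choose Zf Sf _ hκ using h
  refine ⟨_, sumSp S Sf, ⟨Sum.inl (Classical.arbitrary Z)⟩, ?_⟩
  refine (Cardinal.sum_le_sum _ _ hκ).trans ?_
  rw [← Cardinal.mk_sigma]
  refine Cardinal.mk_le_of_injective
    (f := fun p : (Σ i : S.P 0, (Sf i).P 0) =>
      (⟨Sum.inr ⟨p.1, p.2.1⟩, Or.inr ⟨p.1, p.2.1, rfl, p.2.2⟩⟩ : (sumSp S Sf).P 0)) ?_
  rintro ⟨i, w⟩ ⟨j, v⟩ hij
  have h1 := Sum.inr.inj (congrArg Subtype.val hij)
  obtain ⟨h3, h2⟩ := Sigma.mk.inj h1
  change i = j at h3
  subst h3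
  have h4 : w = v := Subtype.ext (eq_of_heq h2)
  rw [h4]

/-- All cardinals below the first inaccessible cardinal are `Big`. -/
theorem big_of_lt (κ : Cardinal.{u}) (hκ : ∀ θ : Cardinal.{u}, θ.IsInaccessible → κ < θ) :
    Big κ := by
  by_contra hcon
  have hne : {θ : Cardinal.{u} | ¬ Big θ}.Nonempty := ⟨κ, hcon⟩
  let θ : Cardinal.{u} := sInf {θ : Cardinal.{u} | ¬ Big θ}
  have hθ : ¬ Big θ := csInf_mem hne
  have hlt : ∀ μ < θ, Big μ := by
    intro μ hμ
    by_contra h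
    exact absurd (csInf_le' (s := {θ : Cardinal.{u} | ¬ Big θ}) h) (not_le.2 hμ)
  have hle : θ ≤ κ := csInf_le' hcon
  have h0 : Cardinal.aleph0 < θ := by
    by_contra h
    exact hθ (big_aleph0.mono (not_lt.1 h))
  refine absurd (hκ θ ⟨h0, ?_, ?_⟩) (not_lt.2 hle)
  · by_contra hcof
    rw [not_le] at hcof
    apply hθ
    let α := θ.ord.ToType
    have hα : Cardinal.mk α = θ := by simp [α]
    obtain ⟨s, hs, hs'⟩ := Order.exists_cof_eq (α := α)
    have hs2 : Cardinal.mk s < θ := by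
      rw [hs']
      simpa [α] using hcof
    obtain ⟨Z, S, hneZ, hZ⟩ := hlt _ hs2
    have hnes : Nonempty s := by
      by_contra hn
      rw [not_nonempty_iff] at hn
      have hαne : Nonempty α := by
        rw [← Cardinal.mk_ne_zero_iff, hα]
        exact (Cardinal.aleph0_pos.trans h0).ne'
      obtain ⟨b, hb, -⟩ := hs (Classical.arbitrary α)
      exact hn.false ⟨b, hb⟩
    obtain ⟨j⟩ : Nonempty (s ↪ S.P 0) := Cardinal.le_def _ _ |>.1 hZ
    let g : S.P 0 → s := Function.invFun j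
    have hg : Function.Surjective g := Function.invFun_surjective j.injective
    have hbig := big_sum S (fun i => Cardinal.mk (Iic (g i).1)) (fun i => by
      apply hlt
      have h1 : Cardinal.mk (Iic (g i).1) < θ := by
        have h2 := Cardinal.mk_Iio_toType_ord_lt (c := θ) (g i).1
        have h3 : Cardinal.mk (Iic (g i).1) ≤ Cardinal.mk (Iio (g i).1) + 1 := by
          rw [← Iio_insert]
          exact Cardinal.mk_insert_le
        refine h3.trans_lt ?_
        exact Cardinal.add_lt_of_lt h0.le h2 (Cardinal.one_lt_aleph0.trans h0)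
      exact h1)
    refine hbig.mono ?_
    refine hα.ge.trans ?_
    rw [← Cardinal.mk_sigma]
    have hex : ∀ x : α, ∃ i : S.P 0, x ≤ (g i).1 := by
      intro x
      obtain ⟨b, hb, hxb⟩ := hs x
      obtain ⟨i, hi⟩ := hg ⟨b, hb⟩
      exact ⟨i, by rw [hi]; exact hxb⟩
    choose i hi using hex
    refine Cardinal.mk_le_of_injective
      (f := fun x : α => (⟨i x, ⟨x, hi x⟩⟩ : Σ i : S.P 0, Iic (g i).1)) ?_
    intro x y hxy
    exact congrArg (fun p : (Σ i : S.P 0, Iic (g i).1) => (p.2.1 : α)) hxy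
  · intro μ hμ
    by_contra h
    exact hθ ((big_pow (hlt μ hμ)).mono (not_lt.1 h))

theorem Sp.lindelof {Z : Type u} (S : Sp Z) : LindelofSpace S.Space :=
  lindelof_of_conv (Y := S.Space) S.P S.cov (fun M F hF => S.tendsto_of_mem F M hF)

/-- For every cardinal `κ` below the first inaccessible cardinal there is a first countable T₁
space of cardinality at least `κ` (and greater than the continuum) all of whose finite powers are
Lindelöf. -/
theorem main (κ : Cardinal.{u}) (hκ : ∀ θ : Cardinal.{u}, θ.IsInaccessible → κ < θ) :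
    ∃ (X : Type u) (_ : TopologicalSpace X), T1Space X ∧ FirstCountableTopology X ∧
      LindelofSpace X ∧ (∀ k : ℕ, LindelofSpace (Fin k → X)) ∧
      Cardinal.continuum.{u} < Cardinal.mk X ∧ κ ≤ Cardinal.mk X := by
  have hc : ∀ θ : Cardinal.{u}, θ.IsInaccessible →
      max κ (2 ^ Cardinal.continuum.{u}) < θ := by
    intro θ hθ
    refine max_lt (hκ θ hθ) ?_
    have h1 : Cardinal.continuum.{u} < θ := by
      rw [← Cardinal.two_power_aleph0]
      exact hθ.isStrongLimit.two_power_lt hθ.aleph0_lt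
    exact hθ.isStrongLimit.two_power_lt h1
  obtain ⟨Z, S, -, hZ⟩ := big_of_lt _ hc
  have hle : max κ (2 ^ Cardinal.continuum.{u}) ≤ Cardinal.mk S.Space :=
    hZ.trans (Cardinal.mk_set_le _)
  exact ⟨S.Space, inferInstance, inferInstance, inferInstance, S.lindelof, S.lindelof_pow,
    (Cardinal.cantor _).trans_le ((le_max_right _ _).trans hle), (le_max_left _ _).trans hle⟩

end Pool.Agent.N515.Lind
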